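import Pool.Agent.P.MP_edcda5_an.FCube

namespace Pool.Agent.Results.MP_edcda5_an.FujiiWilson

open MeasureTheory Pool.Agent.P.MP_edcda5_an

theorem result (d : ℕ) (hd : 1 ≤ d) (v : (Fin d → ℝ) → ℝ) (hv : LocallyIntegrable v volume)
    (hpos : ∀ᵐ x, 0 < v x) (hfin : fwConst v < ⊤) (A b r : ℝ) (hA : A = (fwConst v).toReal)
    (hb : b = 2 ^ d - (2 ^ d - 1) / A) (hr : 1 < r) (hcrit : b ^ r < 2 ^ d)
    (a : Fin d → ℝ) (l : ℝ) (hl : 0 < l) :
    cubeAvg a l (fun x => v x ^ r) ≤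
      ENNReal.ofReal (1 + min A (2 ^ d / b) * (b ^ r - b) / (2 ^ d - b ^ r)) *
        cubeAvg a l v ^ r :=
  fw_main d hd v hv hpos hfin A b r hA hb hr hcrit a l hl

/-- The consequence for the displayed inequality of the problem, with v = w ^ p. -/
theorem displayed (d : ℕ) (hd : 1 ≤ d) (p : ℝ) (hp : 1 < p) (w : (Fin d → ℝ) → ℝ)
    (hw : LocallyIntegrable w volume) (hpos : ∀ᵐ x, 0 < w x)
    (hwp : LocallyIntegrable (fun x => w x ^ p) volume)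
    (hfin : fwConst (fun x => w x ^ p) < ⊤) (a : Fin d → ℝ) (l : ℝ) (hl : 0 < l) (ε : ℝ)
    (hε : 0 < ε)
    (h : ε ≤ p * (1 - 1 / 2 ^ d) / (2 * d * Real.log 2 * (fwConst (fun x => w x ^ p)).toReal)) :
    cubeAvg a l (fun x => w x ^ (p + ε)) ≤
      2 * rhConst p w ^ (p + ε) * cubeAvg a l w ^ (p + ε) :=
  fw_displayed d hd p hp w hw hpos hwp hfin a l hl ε hε h

end Pool.Agent.Results.MP_edcda5_an.FujiiWilson
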