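import Pool.Agent.P.MP_edcda5_an.LCube

namespace Pool.Agent.Results.MP_edcda5_an.LinearDim

open MeasureTheory Pool.Agent.P.MP_edcda5_an

theorem result (d : ℕ) (hd : 1 ≤ d) (p : ℝ) (hp : 1 < p) :
    ∃ c : ℝ, 0 < c ∧ c = p / (20 * (d + p / (p - 1))) ∧
      ∀ w : (Fin d → ℝ) → ℝ, LocallyIntegrable w volume → (∀ᵐ x, 0 < w x) →
      rhConst p w < ⊤ → ∀ (a : Fin d → ℝ) (l : ℝ), 0 < l → ∀ ε : ℝ, 0 < ε →
        ε ≤ c * (rhConst p w).toReal ^ (-p) →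
        cubeAvg a l (fun x => w x ^ (p + ε)) ≤
          2 * rhConst p w ^ (p + ε) * cubeAvg a l w ^ (p + ε) := by
  refine ⟨_, ?_, rfl, linear_main d hd p hp⟩
  have h : 0 < p / (p - 1) := div_pos (by linarith) (by linarith)
  exact div_pos (by linarith) (by positivity)

/-- The literal form of the question: drop the value of the constant. -/
theorem literal_form (d : ℕ) (hd : 1 ≤ d) (p : ℝ) (hp : 1 < p) :
    ∃ c : ℝ, 0 < c ∧
      ∀ w : (Fin d → ℝ) → ℝ, LocallyIntegrable w volume → (∀ᵐ x, 0 < w x) →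
      rhConst p w < ⊤ → ∀ (a : Fin d → ℝ) (l : ℝ), 0 < l → ∀ ε : ℝ, 0 < ε →
        ε ≤ c * (rhConst p w).toReal ^ (-p) →
        cubeAvg a l (fun x => w x ^ (p + ε)) ≤
          2 * rhConst p w ^ (p + ε) * cubeAvg a l w ^ (p + ε) :=
  let ⟨c, h0, _, h⟩ := result d hd p hp
  ⟨c, h0, h⟩

end Pool.Agent.Results.MP_edcda5_an.LinearDim
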